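import Mathlib
import Pool.Agent.TH202.Ex
import Pool.Agent.TH202.Cen
set_option autoImplicit false
namespace Pool.Agent.TH573.C8_BPF
open Pool.Agent.H436R3.Fol Pool.Agent.TH202

variable {K : Type} [Field K] [Algebra ℂ K]

theorem closed_loc {X : Model K} (x : Pt X) : IsIntegrallyClosedIn x.loc.toSubring K := by
  rw [Subring.isIntegrallyClosedIn_iff]
  intro u hu
  obtain ⟨p, hp, h0⟩ := hu
  change x.Mem u
  refine mem_of_root' x (p.map (algebraMap x.loc.toSubring K)) (hp.map _) (fun j => ?_) ?_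
  · rw [Polynomial.coeff_map]
    exact (p.coeff j).2
  · rw [Polynomial.eval_map]
    exact h0

theorem mem_of_notMem {X : Model K} (x : Pt X) {u s : X.R x.i} (hu : u ∉ x.p) :
    x.Mem ((s : K) / (u : K)) := by
  rw [div_eq_mul_inv]
  exact x.mem_mul (x.mem_of_R s.2) (x.mem_inv hu)

theorem local_loc {X : Model K} (x : Pt X) : IsLocalRing x.loc.toSubring := by
  refine IsLocalRing.of_isUnit_or_isUnit_one_sub_self ?_
  rintro ⟨f, hf⟩
  obtain ⟨s, hs, hsf⟩ := id hf
  have h0 : ∀ t : X.R x.i, t ∉ x.p → (t : K) ≠ 0 := by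
    intro t ht h
    exact ht ((Subtype.ext h : t = 0) ▸ x.p.zero_mem)
  set u : X.R x.i := ⟨(s : K) * f, hsf⟩ with hu
  by_cases hup : u ∈ x.p
  · right
    have hsu : s - u ∉ x.p := fun h => hs (by simpa using x.p.add_mem h hup)
    have hm : x.Mem ((s : K) / ((s - u : X.R x.i) : K)) := mem_of_notMem x hsu
    rw [isUnit_iff_exists_inv]
    refine ⟨⟨_, hm⟩, ?_⟩
    apply Subtype.ext
    have h1 := h0 _ hsu
    have h2 : ((s - u : X.R x.i) : K) = (s : K) * (1 - f) := by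
      rw [AddSubgroupClass.coe_sub, hu]
      ring
    change (1 - f) * ((s : K) / ((s - u : X.R x.i) : K)) = 1
    rw [h2] at h1 ⊢
    have h3 : (s : K) ≠ 0 := left_ne_zero_of_mul h1
    have h4 : (1 - f) ≠ 0 := right_ne_zero_of_mul h1
    field_simp
  · left
    have hm : x.Mem ((s : K) / (u : K)) := mem_of_notMem x hup
    rw [isUnit_iff_exists_inv]
    refine ⟨⟨_, hm⟩, ?_⟩
    apply Subtype.ext
    have h1 := h0 _ hup
    change f * ((s : K) / (u : K)) = 1
    have h2 : (u : K) = (s : K) * f := rfl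
    rw [h2] at h1 ⊢
    have h3 : (s : K) ≠ 0 := left_ne_zero_of_mul h1
    have h4 : f ≠ 0 := right_ne_zero_of_mul h1
    field_simp

/-- The generator in a valuation ring. -/
theorem exists_gen (V : ValuationSubring K) {y : K} (hy : y ≠ 0) : ∃ t : K, Gen V t y := by
  rcases V.mem_or_inv_mem y with h | h
  · exact ⟨1, one_ne_zero, Or.inl rfl, by rw [inv_one]; exact V.one_mem,
      by rw [inv_one, mul_one]; exact h⟩
  · exact ⟨y, hy, Or.inr rfl, h, by rw [mul_inv_cancel₀ hy]; exact V.one_mem⟩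

theorem main (R : Subring K) [IsLocalRing R] [IsIntegrallyClosedIn R K] {y3 y0 g : K}
    (h3 : y3 ≠ 0) (h0 : y0 ≠ 0) (hg : g ≠ 0)
    (h : ∀ V : ValuationSubring K, R ≤ V.toSubring → ∀ t3 t0 : K, Gen V t3 y3 → Gen V t0 y0 →
      t3 * t0 / g ∈ V ∧ (t3 * t0 / g)⁻¹ ∈ V) :
    (y3 ∈ R ∨ y3⁻¹ ∈ R) ∧ (y0 ∈ R ∨ y0⁻¹ ∈ R) := by
  -- all products divided by `g` lie in `R`
  have key : ∀ f3 f0 : K, (f3 = 1 ∨ f3 = y3) → (f0 = 1 ∨ f0 = y0) → f3 * f0 / g ∈ R := by
    intro f3 f0 e3 e0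
    by_contra hn
    obtain ⟨V, hV, hn'⟩ := Subring.exists_le_valuationSubring_of_isIntegrallyClosedIn hn
    apply hn'
    obtain ⟨t3, g3⟩ := exists_gen V h3
    obtain ⟨t0, g0⟩ := exists_gen V h0
    have h1 := (h V hV t3 t0 g3 g0).1
    have a3 : f3 * t3⁻¹ ∈ V := by
      rcases e3 with rfl | rfl
      · rw [one_mul]; exact g3.2.2.1
      · exact g3.2.2.2
    have a0 : f0 * t0⁻¹ ∈ V := by
      rcases e0 with rfl | rfl
      · rw [one_mul]; exact g0.2.2.1
      · exact g0.2.2.2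
    have e : f3 * f0 / g = (f3 * t3⁻¹) * (f0 * t0⁻¹) * (t3 * t0 / g) := by
      have n3 := g3.1
      have n0 := g0.1
      field_simp
    rw [e]
    exact V.mul_mem _ _ (V.mul_mem _ _ a3 a0) h1
  obtain ⟨V, hV1, hV2⟩ := Ideal.image_subset_nonunits_valuationSubring (A := R)
    (IsLocalRing.maximalIdeal R) (IsLocalRing.maximalIdeal.isMaximal R).ne_top
  obtain ⟨t3, g3⟩ := exists_gen V h3
  obtain ⟨t0, g0⟩ := exists_gen V h0
  have n3 := g3.1
  have n0 := g0.1
  obtain ⟨h1, h2⟩ := h V hV1 t3 t0 g3 g0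
  have hR : t3 * t0 / g ∈ R := key t3 t0 g3.2.1 g0.2.1
  have hinv : (t3 * t0 / g)⁻¹ ∈ R := by
    have hu : IsUnit (⟨t3 * t0 / g, hR⟩ : R) := by
      by_contra hnu
      have hm : (⟨t3 * t0 / g, hR⟩ : R) ∈ IsLocalRing.maximalIdeal R :=
        (IsLocalRing.mem_maximalIdeal _).2 hnu
      have h4 := hV2 ⟨_, hm, rfl⟩
      have h5 : (t3 * t0 / g) ∈ V.nonunits := h4
      have h6 : (t3 * t0 / g)⁻¹⁻¹ ∈ V.nonunits := by rw [inv_inv]; exact h5
      rcases V.inv_mem_nonunits_iff.1 h6 with h7 | h7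
      · exact (inv_ne_zero (div_ne_zero (mul_ne_zero n3 n0) hg)) h7
      · exact h7 h2
    obtain ⟨w, hw⟩ := isUnit_iff_exists_inv.1 hu
    have hw' : (t3 * t0 / g) * (w : K) = 1 := congrArg Subtype.val hw
    have : (t3 * t0 / g)⁻¹ = (w : K) := inv_eq_of_mul_eq_one_right hw'
    rw [this]
    exact w.2
  have fin : ∀ f3 f0 : K, (f3 = 1 ∨ f3 = y3) → (f0 = 1 ∨ f0 = y0) →
      f3 * f0 / (t3 * t0) ∈ R := by
    intro f3 f0 e3 e0
    have e : f3 * f0 / (t3 * t0) = (f3 * f0 / g) * (t3 * t0 / g)⁻¹ := by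
      field_simp
    rw [e]
    exact R.mul_mem (key f3 f0 e3 e0) hinv
  rcases g3.2.1 with e3 | e3 <;> rcases g0.2.1 with e0 | e0
  · refine ⟨Or.inl ?_, Or.inl ?_⟩
    · have := fin y3 1 (Or.inr rfl) (Or.inl rfl)
      rw [e3, e0] at this
      simpa using this
    · have := fin 1 y0 (Or.inl rfl) (Or.inr rfl)
      rw [e3, e0] at this
      simpa using this
  · refine ⟨Or.inl ?_, Or.inr ?_⟩
    · have := fin y3 y0 (Or.inr rfl) (Or.inr rfl)
      rw [e3, e0] at this
      have e : y3 * y0 / (1 * y0) = y3 := by field_simp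
      rwa [e] at this
    · have := fin 1 1 (Or.inl rfl) (Or.inl rfl)
      rw [e3, e0] at this
      simpa using this
  · refine ⟨Or.inr ?_, Or.inl ?_⟩
    · have := fin 1 1 (Or.inl rfl) (Or.inl rfl)
      rw [e3, e0] at this
      simpa using this
    · have := fin y3 y0 (Or.inr rfl) (Or.inr rfl)
      rw [e3, e0] at this
      have e : y3 * y0 / (y3 * 1) = y0 := by field_simp
      rwa [e] at this
  · refine ⟨Or.inr ?_, Or.inr ?_⟩
    · have := fin 1 y0 (Or.inl rfl) (Or.inr rfl)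
      rw [e3, e0] at this
      have e : 1 * y0 / (y3 * y0) = y3⁻¹ := by field_simp
      rwa [e] at this
    · have := fin y3 1 (Or.inr rfl) (Or.inl rfl)
      rw [e3, e0] at this
      have e : y3 * 1 / (y3 * y0) = y0⁻¹ := by field_simp
      rwa [e] at this

/-- `y` or `1 / y` is regular at `x`. -/
def St {X : Model K} (x : Pt X) (y : K) : Prop := x.Mem y ∨ x.Mem y⁻¹

theorem St.inv {X : Model K} {x : Pt X} {y : K} (h : St x y) : St x y⁻¹ := by
  rcases h with h | h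
  · right; rw [inv_inv]; exact h
  · left; exact h

theorem St.gen {X : Model K} {x : Pt X} {y : K} (hy : y ≠ 0) (h : St x y) :
    ∃ t : K, t ≠ 0 ∧ ∀ V : ValuationSubring K, x.loc.toSubring ≤ V.toSubring → Gen V t y := by
  rcases h with h | h
  · refine ⟨1, one_ne_zero, fun V hV => ⟨one_ne_zero, Or.inl rfl, ?_, ?_⟩⟩
    · rw [inv_one]; exact V.one_mem
    · rw [inv_one, mul_one]; exact hV h
  · refine ⟨y, hy, fun V hV => ⟨hy, Or.inr rfl, ?_, ?_⟩⟩
    · exact hV h
    · rw [mul_inv_cancel₀ hy]; exact V.one_mem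

theorem step {d : Dat K} {X : Model K} (s : Sq d) (x : Pt X) (k : ℕ)
    (h1 : St x (s.y (k + 1))) (h2 : St x (s.y (k + 2))) :
    St x (s.y (k + 3)) ∧ St x (s.y k) := by
  obtain ⟨t1, n1, g1⟩ := h1.gen (s.y_ne _)
  obtain ⟨t2, n2, g2⟩ := h2.gen (s.y_ne _)
  haveI := local_loc x
  haveI := closed_loc x
  have hD := s.D_ne k
  have hg : t2 ^ 2 * t1 ^ 2 / s.D k ≠ 0 :=
    div_ne_zero (mul_ne_zero (pow_ne_zero _ n2) (pow_ne_zero _ n1)) hD
  refine main x.loc.toSubring (s.y_ne (k + 3)) (s.y_ne k) hg ?_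
  intro V hV t3 t0 g3 g0
  have h := s.par k V (fun z => hV (x.loc.algebraMap_mem z)) t0 t1 t2 t3 g0 (g1 V hV) (g2 V hV) g3
  have e : t3 * t0 / (t2 ^ 2 * t1 ^ 2 / s.D k) = t3 * t0 * s.D k * (t2 ^ 2 * t1 ^ 2)⁻¹ := by
    field_simp
  rw [e]
  exact h

theorem st_of_free {X : Model K} {y : K} (h : IsFree X (m := 1) ![1, y]) (x : Pt X) : St x y := by
  obtain ⟨k, hk⟩ := h.2 x
  fin_cases k
  · left
    have := hk 1
    simpa using this
  · right
    have := hk 0
    simpa using this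

/-- The functions `y_k` are morphisms from `X` to `P^1`. -/
theorem free_y {d : Dat K} (X : Model K) (ha : IsFree X (m := 1) ![1, d.a])
    (hb : IsFree X (m := 1) ![1, d.b]) (s : Sq d) (k : ℕ) : IsFree X (m := 1) ![1, s.y k] := by
  refine ⟨?_, fun x => ?_⟩
  · intro j
    fin_cases j
    · exact one_ne_zero
    · exact s.y_ne k
  · have h1 : St x (s.y 1) := by
      rw [s.y1]; exact (st_of_free hb x).inv
    have h2 : St x (s.y 2) := by
      rw [s.y2]; exact (st_of_free ha x).inv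
    have all : ∀ n : ℕ, St x (s.y n) ∧ St x (s.y (n + 1)) ∧ St x (s.y (n + 2)) := by
      intro n
      induction n with
      | zero => exact ⟨(step s x 0 h1 h2).2, h1, h2⟩
      | succ n ih => exact ⟨ih.2.1, ih.2.2, (step s x n ih.2.1 ih.2.2).1⟩
    rcases (all k).1 with h | h
    · refine ⟨0, fun j => ?_⟩
      fin_cases j
      · have h1 : x.Mem (1 : K) := x.mem_of_R (one_mem _)
        simpa using h1
      · simpa using h
    · refine ⟨1, fun j => ?_⟩
      fin_cases j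
      · simpa using h
      · have h1 : x.Mem (1 : K) := x.mem_of_R (one_mem _)
        have e : s.y k / s.y k = 1 := div_self (s.y_ne k)
        simpa [e] using h1

end Pool.Agent.TH573.C8_BPF
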