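import Mathlib
import Pool.Agent.TH202.Ex
import Pool.Agent.TH202.Mod
set_option autoImplicit false
namespace Pool.Agent.TH573.C8_NEFA
open Pool.Agent.H436R3.Fol Pool.Agent.TH202

variable {K : Type} [Field K] [Algebra ℂ K]

theorem Th_eq {d : Dat K} (s : Sq d) (k : ℕ) (v : DVal K) :
    Th s k v = max 0 (-(v.ord (s.y k) : ℝ)) := by
  unfold Th Lin
  have hu : (Finset.univ : Finset (Fin (1 + 1))) = {0, 1} := by decide
  apply le_antisymm
  · apply Finset.sup'_le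
    intro j _
    fin_cases j
    · simp [v.ord_one]
    · simp
  · apply max_le
    · refine le_trans ?_ (Finset.le_sup' _ (Finset.mem_univ 0))
      simp [v.ord_one]
    · refine le_trans ?_ (Finset.le_sup' _ (Finset.mem_univ 1))
      simp

/-- The generator of the fractional ideal. -/
theorem exists_gen (v : DVal K) {y : K} (hy : y ≠ 0) :
    ∃ t : K, Gen (VS v) t y ∧ -(v.ord t : ℝ) = max 0 (-(v.ord y : ℝ)) := by
  by_cases h : 0 ≤ v.ord y
  · refine ⟨1, ⟨one_ne_zero, Or.inl rfl, ?_, ?_⟩, ?_⟩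
    · rw [inv_one]; exact one_mem _
    · rw [inv_one, mul_one, mem_VS]; exact Or.inr h
    · rw [v.ord_one, max_eq_left]
      · simp
      · simpa using h
  · push Not at h
    refine ⟨y, ⟨hy, Or.inr rfl, ?_, ?_⟩, ?_⟩
    · rw [mem_VS]; right; rw [v.ord_inv hy]; omega
    · rw [mul_inv_cancel₀ hy]; exact one_mem _
    · rw [max_eq_right]
      have : (v.ord y : ℝ) < 0 := by exact_mod_cast h
      linarith

theorem ord_unit (v : DVal K) {u : K} (hu : u ≠ 0) (h1 : u ∈ VS v) (h2 : u⁻¹ ∈ VS v) :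
    v.ord u = 0 := by
  rw [mem_VS] at h1 h2
  have h3 := h1.resolve_left hu
  have h4 := h2.resolve_left (inv_ne_zero hu)
  rw [v.ord_inv hu] at h4
  omega

theorem Th_rel {d : Dat K} (s : Sq d) (k : ℕ) (v : DVal K) :
    Th s (k + 3) v + Th s k v = 2 * Th s (k + 2) v + 2 * Th s (k + 1) v + (v.ord (s.D k) : ℝ) := by
  rw [Th_eq, Th_eq, Th_eq, Th_eq]
  obtain ⟨t0, g0, e0⟩ := exists_gen v (s.y_ne k)
  obtain ⟨t1, g1, e1⟩ := exists_gen v (s.y_ne (k + 1))
  obtain ⟨t2, g2, e2⟩ := exists_gen v (s.y_ne (k + 2))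
  obtain ⟨t3, g3, e3⟩ := exists_gen v (s.y_ne (k + 3))
  obtain ⟨h1, h2⟩ := s.par k (VS v) (fun z => by rw [mem_VS]; exact v.reg_const z)
    t0 t1 t2 t3 g0 g1 g2 g3
  have n0 := g0.1
  have n1 := g1.1
  have n2 := g2.1
  have n3 := g3.1
  have nD := s.D_ne k
  have hne : t3 * t0 * s.D k * (t2 ^ 2 * t1 ^ 2)⁻¹ ≠ 0 :=
    mul_ne_zero (mul_ne_zero (mul_ne_zero n3 n0) nD)
      (inv_ne_zero (mul_ne_zero (pow_ne_zero _ n2) (pow_ne_zero _ n1)))
  have h := ord_unit v hne h1 h2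
  rw [v.map_mul _ _ (mul_ne_zero (mul_ne_zero n3 n0) nD)
      (inv_ne_zero (mul_ne_zero (pow_ne_zero _ n2) (pow_ne_zero _ n1))),
    v.map_mul _ _ (mul_ne_zero n3 n0) nD, v.map_mul _ _ n3 n0,
    v.ord_inv (mul_ne_zero (pow_ne_zero _ n2) (pow_ne_zero _ n1)),
    v.map_mul _ _ (pow_ne_zero _ n2) (pow_ne_zero _ n1), v.ord_pow n2, v.ord_pow n1] at h
  rw [← e0, ← e1, ← e2, ← e3]
  have h' : ((v.ord t3 : ℝ) + v.ord t0 + v.ord (s.D k)) - (2 * v.ord t2 + 2 * v.ord t1) = 0 := by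
    have := congrArg (Int.cast : ℤ → ℝ) h
    push_cast at this
    linarith
  linarith

theorem dv_mem {g : K} (hg : g ≠ 0) : dv g ∈ Prin K := Submodule.subset_span ⟨g, hg, rfl⟩

theorem Ak_rel {d : Dat K} (s : Sq d) (k : ℕ) :
    Ak s (k + 2) - (3 : ℝ) • Ak s (k + 1) + Ak s k ∈ Prin K := by
  have h : Ak s (k + 2) - (3 : ℝ) • Ak s (k + 1) + Ak s k = dv (s.D k) := by
    funext v
    have := Th_rel s k v
    simp only [Ak, Pi.add_apply, Pi.sub_apply, Pi.smul_apply, smul_eq_mul, dv]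
    linarith
  rw [h]
  exact dv_mem (s.D_ne k)

/-- The numbers `G_n`. -/
noncomputable def G : ℕ → ℝ
  | 0 => 0
  | 1 => 1
  | (n + 2) => 3 * G (n + 1) - G n

theorem G_rec (n : ℕ) : G (n + 2) = 3 * G (n + 1) - G n := by rw [G]

theorem G_bound (n : ℕ) : 0 < G (n + 1) ∧ 2 * G n ≤ G (n + 1) := by
  induction n with
  | zero => simp [G]
  | succ n ih =>
    rw [G_rec]
    obtain ⟨h1, h2⟩ := ih
    constructor <;> nlinarith

theorem G_ge (n : ℕ) : (2 : ℝ) ^ n ≤ G (n + 1) := by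
  induction n with
  | zero => simp [G]
  | succ n ih =>
    have := (G_bound (n + 1)).2
    rw [pow_succ]
    linarith

theorem Ak_G {d : Dat K} (s : Sq d) (n : ℕ) :
    Ak s (n + 2) - G (n + 1) • Ak s 2 + G n • Ak s 1 ∈ Prin K ∧
    Ak s (n + 3) - G (n + 2) • Ak s 2 + G (n + 1) • Ak s 1 ∈ Prin K := by
  induction n with
  | zero =>
    constructor
    · have : Ak s (0 + 2) - G (0 + 1) • Ak s 2 + G 0 • Ak s 1 = 0 := by
        simp [G]
      rw [this]; exact zero_mem _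
    · have : Ak s (0 + 3) - G (0 + 2) • Ak s 2 + G (0 + 1) • Ak s 1
        = Ak s (1 + 2) - (3 : ℝ) • Ak s (1 + 1) + Ak s 1 := by
        simp [G]
      rw [this]; exact Ak_rel s 1
  | succ n ih =>
    refine ⟨ih.2, ?_⟩
    have h := Ak_rel s (n + 2)
    have e : Ak s (n + 1 + 3) - G (n + 1 + 2) • Ak s 2 + G (n + 1 + 1) • Ak s 1
        = (Ak s (n + 2 + 2) - (3 : ℝ) • Ak s (n + 2 + 1) + Ak s (n + 2))
          + (3 : ℝ) • (Ak s (n + 3) - G (n + 2) • Ak s 2 + G (n + 1) • Ak s 1)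
          - (Ak s (n + 2) - G (n + 1) • Ak s 2 + G n • Ak s 1) := by
      have g1 : G (n + 1 + 2) = 3 * G (n + 2) - G (n + 1) := G_rec (n + 1)
      have g2 : G (n + 2) = 3 * G (n + 1) - G n := G_rec n
      have g2' : G (n + 1 + 1) = G (n + 2) := rfl
      funext v
      simp only [Pi.add_apply, Pi.sub_apply, Pi.smul_apply, smul_eq_mul]
      rw [g1, g2', g2]
      have a1 : Ak s (n + 1 + 3) v = Ak s (n + 2 + 2) v := by
        congr 1
      have a2 : Ak s (n + 3) v = Ak s (n + 2 + 1) v := rfl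
      rw [a1, a2]
      ring
    rw [e]
    exact sub_mem (add_mem h (Submodule.smul_mem _ _ ih.2)) ih.1

theorem kap_eq : kap * (3 - kap) = 1 := by
  unfold kap
  have h : Real.sqrt 5 * Real.sqrt 5 = 5 := Real.mul_self_sqrt (by norm_num)
  nlinarith

theorem kap_pos : 0 < kap := by
  unfold kap
  have h : Real.sqrt 5 < 3 := by
    rw [Real.sqrt_lt' (by norm_num)]; norm_num
  linarith

theorem kap_lt : kap < 1 / 2 := by
  unfold kap
  have h : 2 < Real.sqrt 5 := by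
    rw [Real.lt_sqrt (by norm_num)]; norm_num
  linarith

/-- `0 ≤ kap G_{n+1} - G_n ≤ 1`. -/
theorem kG (n : ℕ) : 0 ≤ kap * G (n + 1) - G n ∧ kap * G (n + 1) - G n ≤ 1 := by
  -- kap G_{n+2} - G_{n+1} = kap (3 G_{n+1} - G_n) - G_{n+1} = kap * (kap G_{n+1} - G_n)
  have h : ∀ n : ℕ, kap * G (n + 2) - G (n + 1) = kap * (kap * G (n + 1) - G n) := by
    intro n
    rw [G_rec]
    have := kap_eq
    linear_combination (G (n + 1)) * this
  induction n with
  | zero =>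
    have h1 := kap_pos
    have h2 := kap_lt
    simp only [G]
    constructor <;> linarith
  | succ n ih =>
    rw [h n]
    have h1 := kap_pos
    have h2 := kap_lt
    constructor <;> nlinarith [ih.1, ih.2]

theorem bet_approx {d : Dat K} (s : Sq d) (δ : ℝ) (hδ : 0 < δ) :
    ∃ k : ℕ, 1 ≤ k ∧ ∃ g e : ℝ, 0 < g ∧ g ≤ δ ∧ 0 ≤ e ∧ e ≤ δ ∧
      bet s + e • Ak s 1 - g • Ak s (k + 1) ∈ Prin K := by
  obtain ⟨n, hn⟩ := pow_unbounded_of_one_lt (1 / δ) (one_lt_two : (1 : ℝ) < 2)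
  have hG := G_ge n
  have hG0 : 0 < G (n + 1) := (G_bound n).1
  have hle : 1 / G (n + 1) ≤ δ := by
    rw [div_le_iff₀ hG0]
    rw [div_lt_iff₀ hδ] at hn
    nlinarith
  refine ⟨n + 1, by omega, 1 / G (n + 1), kap - G n / G (n + 1), by positivity, hle, ?_, ?_, ?_⟩
  · have := (kG n).1
    rw [sub_nonneg, div_le_iff₀ hG0]
    linarith
  · have := (kG n).2
    refine le_trans ?_ hle
    rw [sub_le_iff_le_add, ← add_div, le_div_iff₀ hG0]
    linarith
  · have h := (Ak_G s n).1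
    have e : bet s + (kap - G n / G (n + 1)) • Ak s 1 - (1 / G (n + 1)) • Ak s (n + 1 + 1)
        = (-(1 / G (n + 1))) • (Ak s (n + 2) - G (n + 1) • Ak s 2 + G n • Ak s 1) := by
      funext v
      simp only [bet, Pi.add_apply, Pi.sub_apply, Pi.smul_apply, smul_eq_mul]
      have a1 : Ak s (n + 1 + 1) v = Ak s (n + 2) v := rfl
      rw [a1]
      field_simp
      ring
    rw [e]
    exact Submodule.smul_mem _ _ h

end Pool.Agent.TH573.C8_NEFA
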